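import Pool.Agent.H98.SubC

/-!
A subnormal operator which is not similar (in particular not unitarily equivalent) to a
multiplication operator on a space `R²(K, μ)`.

Elements of `L²(μ)` are represented by functions `ℂ → ℂ`, functions which agree `μ`-almost
everywhere being identified.
-/

set_option autoImplicit false

open MeasureTheory
open scoped ENNReal

namespace Pool.Agent.Results.MP_50702e_an.NoFunctionalModel

/-- `S` is subnormal: there are a separable complex Hilbert space `E`, an isometric embedding `V`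
of `H` into `E` and a bounded normal operator `N` of `E` which leaves the image of `V` invariant
and restricts to `S` there, that is `N (V x) = V (S x)` for all `x`. -/
def Subnormal {H : Type} [NormedAddCommGroup H] [InnerProductSpace ℂ H] (S : H →L[ℂ] H) : Prop :=
  ∃ (E : Type) (_ : NormedAddCommGroup E) (_ : InnerProductSpace ℂ E) (_ : CompleteSpace E)
    (_ : TopologicalSpace.SeparableSpace E) (V : H →ₗᵢ[ℂ] E) (N : E →L[ℂ] E),
    IsStarNormal N ∧ ∀ x : H, N (V x) = V (S x)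

/-- `Rat(K)`, the rational functions `p / q` whose denominator `q` has no zero on `K`. -/
def RatFun (K : Set ℂ) : Set (ℂ → ℂ) :=
  {r | ∃ p q : Polynomial ℂ, (∀ z ∈ K, q.eval z ≠ 0) ∧ ∀ z, r z = p.eval z / q.eval z}

/-- `f` belongs to `R²(K, μ)`: it is in `L²(μ)` and in the `L²(μ)` closure of `Rat(K)`. -/
def MemR2 (K : Set ℂ) (μ : Measure ℂ) (f : ℂ → ℂ) : Prop :=
  MemLp f 2 μ ∧ ∀ ε : ℝ, 0 < ε → ∃ r ∈ RatFun K, eLpNorm (f - r) 2 μ < ENNReal.ofReal ε

/-- `A` is a bounded invertible linear operator of `H` onto `R²(K, μ)`: its values are in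
`R²(K, μ)`, it is linear up to `μ`-almost everywhere equality, bounded, bounded below, and onto. -/
def InvertibleOnto {H : Type} [NormedAddCommGroup H] [InnerProductSpace ℂ H]
    (K : Set ℂ) (μ : Measure ℂ) (A : H → ℂ → ℂ) : Prop :=
  (∀ x, MemR2 K μ (A x)) ∧
  (∀ x y, A (x + y) =ᵐ[μ] A x + A y) ∧ (∀ (a : ℂ) (x), A (a • x) =ᵐ[μ] a • A x) ∧
  (∃ c C : ℝ, 0 < c ∧ ∀ x, c * ‖x‖ ≤ (eLpNorm (A x) 2 μ).toReal ∧
    (eLpNorm (A x) 2 μ).toReal ≤ C * ‖x‖) ∧
  ∀ f, MemR2 K μ f → ∃ x, A x =ᵐ[μ] f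

/-- `S` is similar to the multiplication by the function `φ` on `R²(K, μ)`: some bounded
invertible operator `A` of `H` onto `R²(K, μ)` satisfies `A (S x) = φ * A x` for all `x`. -/
def SimilarToMultiplication {H : Type} [NormedAddCommGroup H] [InnerProductSpace ℂ H]
    (S : H →L[ℂ] H) (K : Set ℂ) (μ : Measure ℂ) (φ : ℂ → ℂ) : Prop :=
  ∃ A : H → ℂ → ℂ, InvertibleOnto K μ A ∧ ∀ x, A (S x) =ᵐ[μ] φ * A x

open Pool.Agent.H98.Sub in
private theorem no_model_aux (μ : Measure ℂ) [IsFiniteMeasure μ] (K : Set ℂ) (φ : ℂ → ℂ)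
    (hK : IsCompact K) (hK0 : μ Kᶜ = 0) (A : L2 ℕ ≃L[ℂ] R2 μ K)
    (hQ : ∀ x, ((A (S x) : Lp ℂ 2 μ) : ℂ → ℂ) =ᵐ[μ]
      fun z => φ z * ((A x : Lp ℂ 2 μ) : ℂ → ℂ) z) : False := by
  have hz := memLp_id hK hK0
  have hMR : ∀ f : R2 μ K, Mz hz f ∈ R2 μ K := fun f => Mz_R2 hz f f.2
  set MR : R2 μ K →L[ℂ] R2 μ K := ((Mz hz).comp (R2 μ K).subtypeL).codRestrict (R2 μ K) hMR
    with hMRdef
  have hMRa : ∀ f : R2 μ K, MR f = ⟨Mz hz f, Mz_R2 hz f f.2⟩ := fun f => rfl
  set T : L2 ℕ →L[ℂ] L2 ℕ :=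
    (A.symm : R2 μ K →L[ℂ] L2 ℕ).comp (MR.comp (A : L2 ℕ →L[ℂ] R2 μ K)) with hTdef
  have hTa : ∀ x, A (T x) = MR (A x) := by
    intro x
    show A (A.symm (MR (A x))) = MR (A x)
    rw [ContinuousLinearEquiv.apply_symm_apply]
  have hTS : ∀ x, T (S x) = S (T x) := by
    intro x
    apply A.injective
    apply Subtype.ext
    apply Lp.ext
    have e1 : ((A (T (S x)) : R2 μ K) : Lp ℂ 2 μ) = Mz hz (A (S x) : R2 μ K) := by
      rw [hTa, hMRa]
    have e2 : ((A (T x) : R2 μ K) : Lp ℂ 2 μ) = Mz hz (A x : R2 μ K) := by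
      rw [hTa, hMRa]
    have h1 := Mz_ae hz (A (S x) : R2 μ K)
    have h2 := Mz_ae hz (A x : R2 μ K)
    have h3 := hQ x
    have h4 := hQ (T x)
    rw [e1]
    rw [e2] at h4
    filter_upwards [h1, h2, h3, h4] with z a1 a2 a3 a4
    rw [a1, a3, a4, a2]
    ring
  have hone1 : MemLp (fun _ : ℂ => (1 : ℂ)) 2 μ := memLp_const 1
  have honeR : hone1.toLp ∈ R2 μ K := by
    apply Submodule.le_topologicalClosure _ (Submodule.subset_span _)
    refine ⟨1, 1, by simp, ?_⟩
    filter_upwards [hone1.coeFn_toLp] with z h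
    rw [h]
    simp
  apply key T hTS (A.symm ⟨hone1.toLp, honeR⟩)
  intro c l hl hl0
  set l' : R2 μ K →L[ℂ] ℂ := l.comp (A.symm : R2 μ K →L[ℂ] L2 ℕ) with hl'
  have hl'a : ∀ f, l' f = l (A.symm f) := fun f => rfl
  have h0 : l' = 0 := by
    apply functional_zero hK hK0 hz l' c _ ⟨hone1.toLp, honeR⟩ hone1.coeFn_toLp
    · rw [hl'a]
      exact hl0
    · intro f
      rw [hl'a, hl'a, ← hMRa]
      have := hl (A.symm f)
      rw [← this]
      congr 1
      apply A.injective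
      rw [ContinuousLinearEquiv.apply_symm_apply, hTa, ContinuousLinearEquiv.apply_symm_apply]
  ext1 x
  have := congrArg (fun g : R2 μ K →L[ℂ] ℂ => g (A x)) h0
  simp only [hl'a, ContinuousLinearEquiv.symm_apply_apply] at this
  rw [this]
  rfl

private theorem separable_Z : TopologicalSpace.SeparableSpace (Pool.Agent.H98.Sub.L2 ℤ) := by
  have b : HilbertBasis ℤ ℂ (Pool.Agent.H98.Sub.L2 ℤ) := ⟨LinearIsometryEquiv.refl ℂ _⟩
  have h1 : TopologicalSpace.IsSeparable (Set.range b) := (Set.countable_range b).isSeparable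
  have h2 : TopologicalSpace.IsSeparable
    (Submodule.span ℂ (Set.range b) : Set (Pool.Agent.H98.Sub.L2 ℤ)) := h1.span
  have h3 : closure (Submodule.span ℂ (Set.range b) : Set (Pool.Agent.H98.Sub.L2 ℤ)) =
      Set.univ := by
    have h4 := congrArg (fun s : Submodule ℂ (Pool.Agent.H98.Sub.L2 ℤ) =>
      (s : Set (Pool.Agent.H98.Sub.L2 ℤ))) b.dense_span
    exact h4
  rw [← TopologicalSpace.isSeparable_univ_iff, ← h3]
  exact h2.closure

/-- The class of a member of `R²(K, μ)` lies in the closed span of the classes of `Rat(K)`. -/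
private theorem mem_R2_of_memR2 {μ : Measure ℂ} [IsFiniteMeasure μ] {K : Set ℂ}
    (hK : IsCompact K) (hK0 : μ Kᶜ = 0) {f : ℂ → ℂ} (hf : MemR2 K μ f) :
    hf.1.toLp ∈ Pool.Agent.H98.Sub.R2 μ K := by
  have : hf.1.toLp ∈ closure
      ((Submodule.span ℂ (Pool.Agent.H98.Sub.ratSet μ K) : Submodule ℂ (Lp ℂ 2 μ)) :
        Set (Lp ℂ 2 μ)) := by
    rw [Metric.mem_closure_iff]
    intro ε hε
    obtain ⟨r, ⟨p, q, hq, hr⟩, hlt⟩ := hf.2 ε hε
    have hr' : r = fun z => p.eval z / q.eval z := funext hr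
    have hrm : MemLp r 2 μ := by
      rw [hr']
      exact Pool.Agent.H98.Sub.memLp_rat hK hK0 p q hq
    refine ⟨hrm.toLp, Submodule.subset_span ⟨p, q, hq, ?_⟩, ?_⟩
    · filter_upwards [hrm.coeFn_toLp] with z hz
      rw [hz, hr]
    · rw [← edist_lt_ofReal, Lp.edist_toLp_toLp]
      exact hlt
  exact this

/-- Sums of classes of `Rat(K)` are classes of `Rat(K)`. -/
private theorem span_ratSet {μ : Measure ℂ} {K : Set ℂ} {b : Lp ℂ 2 μ}
    (hb : b ∈ Submodule.span ℂ (Pool.Agent.H98.Sub.ratSet μ K)) :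
    b ∈ Pool.Agent.H98.Sub.ratSet μ K ∨ μ Kᶜ ≠ 0 := by
  by_cases hK0 : μ Kᶜ = 0
  · left
    induction hb using Submodule.span_induction with
    | mem x hx => exact hx
    | zero =>
      refine ⟨0, 1, by simp, ?_⟩
      filter_upwards [Lp.coeFn_zero ℂ 2 μ] with z hz
      rw [hz]
      simp
    | add x y _ _ hx hy =>
      obtain ⟨p, q, hq, hpq⟩ := hx
      obtain ⟨p', q', hq', hpq'⟩ := hy
      refine ⟨p * q' + p' * q, q * q', fun z hz => ?_, ?_⟩
      · rw [Polynomial.eval_mul]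
        exact mul_ne_zero (hq z hz) (hq' z hz)
      · filter_upwards [Lp.coeFn_add x y, hpq, hpq', Pool.Agent.H98.Sub.ae_mem hK0]
          with z h1 h2 h3 h4
        rw [h1, Pi.add_apply, h2, h3]
        have e1 := hq z h4
        have e2 := hq' z h4
        simp only [Polynomial.eval_add, Polynomial.eval_mul]
        field_simp
    | smul a x _ hx =>
      obtain ⟨p, q, hq, hpq⟩ := hx
      refine ⟨Polynomial.C a * p, q, hq, ?_⟩
      filter_upwards [Lp.coeFn_smul a x, hpq] with z h1 h2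
      rw [h1, Pi.smul_apply, h2, Polynomial.eval_mul, Polynomial.eval_C, smul_eq_mul, mul_div_assoc]
  · right
    exact hK0

private theorem memR2_of_mem_R2 {μ : Measure ℂ} {K : Set ℂ} (hK0 : μ Kᶜ = 0) {g : Lp ℂ 2 μ}
    (hg : g ∈ Pool.Agent.H98.Sub.R2 μ K) : MemR2 K μ g := by
  refine ⟨Lp.memLp g, fun ε hε => ?_⟩
  have hg' : g ∈ closure
      ((Submodule.span ℂ (Pool.Agent.H98.Sub.ratSet μ K) : Submodule ℂ (Lp ℂ 2 μ)) :
        Set (Lp ℂ 2 μ)) := hg
  rw [Metric.mem_closure_iff] at hg'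
  obtain ⟨b, hb, hd⟩ := hg' ε hε
  obtain ⟨p, q, hq, hpq⟩ := (span_ratSet hb).resolve_right (fun h => h hK0)
  refine ⟨fun z => p.eval z / q.eval z, ⟨p, q, hq, fun z => rfl⟩, ?_⟩
  rw [← edist_lt_ofReal, Lp.edist_def] at hd
  refine lt_of_le_of_lt (le_of_eq ?_) hd
  apply eLpNorm_congr_ae
  filter_upwards [hpq] with z hz
  rw [Pi.sub_apply, Pi.sub_apply, hz]

/-- There is a subnormal operator on a separable Hilbert space which is not similar to the
multiplication by any function `φ` on any `R²(K, μ)`. -/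
theorem result :
    ∃ (H : Type) (_ : NormedAddCommGroup H) (_ : InnerProductSpace ℂ H) (_ : CompleteSpace H)
      (_ : TopologicalSpace.SeparableSpace H) (S : H →L[ℂ] H), Subnormal S ∧
      ∀ (μ : Measure ℂ) (K : Set ℂ) (φ : ℂ → ℂ), IsFiniteMeasure μ → IsCompact K →
        μ.support ⊆ K → ¬ SimilarToMultiplication S K μ φ := by
  refine ⟨Pool.Agent.H98.Sub.L2 ℕ, inferInstance, inferInstance, inferInstance, inferInstance,
    Pool.Agent.H98.Sub.S, ?_, ?_⟩
  · refine ⟨Pool.Agent.H98.Sub.L2 ℤ, inferInstance, inferInstance, inferInstance, separable_Z,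
      Pool.Agent.H98.Sub.V, Pool.Agent.H98.Sub.N, Pool.Agent.H98.Sub.normal_N, fun x => ?_⟩
    exact congrArg (fun g : Pool.Agent.H98.Sub.L2 ℕ →L[ℂ] Pool.Agent.H98.Sub.L2 ℤ => g x)
      Pool.Agent.H98.Sub.N_V
  · intro μ K φ hμ hK hs hA
    obtain ⟨A, ⟨hmem, hadd, hsmul, ⟨c, C, hc, hbd⟩, honto⟩, hφ⟩ := hA
    have hK0 : μ Kᶜ = 0 := by
      apply measure_mono_null (Set.compl_subset_compl.2 hs)
      exact Measure.measure_compl_support
    let L : Pool.Agent.H98.Sub.L2 ℕ →ₗ[ℂ] Pool.Agent.H98.Sub.R2 μ K :=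
      { toFun := fun x => ⟨(hmem x).1.toLp, mem_R2_of_memR2 hK hK0 (hmem x)⟩
        map_add' := by
          intro x y
          apply Subtype.ext
          apply Lp.ext
          show ((hmem (x + y)).1.toLp : ℂ → ℂ) =ᵐ[μ]
            (((hmem x).1.toLp + (hmem y).1.toLp : Lp ℂ 2 μ) : ℂ → ℂ)
          filter_upwards [(hmem (x + y)).1.coeFn_toLp, (hmem x).1.coeFn_toLp,
            (hmem y).1.coeFn_toLp, Lp.coeFn_add (hmem x).1.toLp (hmem y).1.toLp, hadd x y]
            with z h1 h2 h3 h4 h5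
          rw [h1, h4, Pi.add_apply, h2, h3, h5, Pi.add_apply]
        map_smul' := by
          intro a x
          apply Subtype.ext
          apply Lp.ext
          show ((hmem (a • x)).1.toLp : ℂ → ℂ) =ᵐ[μ]
            ((a • (hmem x).1.toLp : Lp ℂ 2 μ) : ℂ → ℂ)
          filter_upwards [(hmem (a • x)).1.coeFn_toLp, (hmem x).1.coeFn_toLp,
            Lp.coeFn_smul a (hmem x).1.toLp, hsmul a x] with z h1 h2 h3 h4
          rw [h1, h3, Pi.smul_apply, h2, h4, Pi.smul_apply] }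
    have hLn : ∀ x, ‖L x‖ = (eLpNorm (A x) 2 μ).toReal := fun x =>
      Lp.norm_toLp (A x) (hmem x).1
    have hLa : ∀ x, ((L x : Lp ℂ 2 μ) : ℂ → ℂ) =ᵐ[μ] A x := fun x => (hmem x).1.coeFn_toLp
    have hinj : Function.Injective L := by
      rw [injective_iff_map_eq_zero]
      intro x hx
      have h1 := (hbd x).1
      rw [← hLn, hx, norm_zero] at h1
      have h2 : ‖x‖ ≤ 0 := by
        by_contra hcon
        push Not at hcon
        have := mul_pos hc hcon
        linarith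
      exact norm_le_zero_iff.1 h2
    have hsurj : Function.Surjective L := by
      intro g
      obtain ⟨x, hx⟩ := honto g (memR2_of_mem_R2 hK0 g.2)
      refine ⟨x, ?_⟩
      apply Subtype.ext
      apply Lp.ext
      exact (hLa x).trans hx
    let e : Pool.Agent.H98.Sub.L2 ℕ ≃L[ℂ] Pool.Agent.H98.Sub.R2 μ K :=
      (LinearEquiv.ofBijective L ⟨hinj, hsurj⟩).toContinuousLinearEquivOfBounds C c⁻¹
        (fun x => by
          show ‖L x‖ ≤ C * ‖x‖
          rw [hLn]
          exact (hbd x).2)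
        (fun g => by
          set x := (LinearEquiv.ofBijective L ⟨hinj, hsurj⟩).symm g with hx
          have hg : L x = g := (LinearEquiv.ofBijective L ⟨hinj, hsurj⟩).apply_symm_apply g
          have h1 := (hbd x).1
          rw [← hLn, hg] at h1
          rw [inv_mul_eq_div, le_div_iff₀ hc, mul_comm]
          exact h1)
    have hea : ∀ x, e x = L x := fun x => rfl
    refine no_model_aux μ K φ hK hK0 e (fun x => ?_)
    rw [hea, hea]
    filter_upwards [hLa (Pool.Agent.H98.Sub.S x), hLa x, hφ x] with z h1 h2 h3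
    rw [h1, h3, h2, Pi.mul_apply]

end Pool.Agent.Results.MP_50702e_an.NoFunctionalModel
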